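import Pool.Agent.K9h72.BN.Asmb
import Pool.Agent.K9h72.BN.Moo
import Pool.Agent.K9h72.BN.Contr
import Pool.Agent.K9h72.BN.Stb
import Pool.Agent.K9h72.BN.Riz
import Pool.Agent.K9h72.BN.Pot

/-!
# The basis number of a graph with `n` vertices is `O(log n)`

Every finite graph `G` with `n` vertices and `m` edges has a cycle basis in which every edge is in at most
`4 (log_2 n + 1) + log_2 m` members.
-/

set_option autoImplicit false

namespace Pool.Agent.Results.MP_35885f_co.LogBound

open Classical in
/-- The cycle space of `G` over the field with two elements. Its elements are the (characteristic functions of the) sets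
of edges which contain an even number of edges at each vertex. -/
noncomputable def cycleSpace {V : Type} [Fintype V] (G : SimpleGraph V) : Submodule (ZMod 2) (G.edgeSet → ZMod 2) where
  carrier := {c | ∀ v : V, ∑ e : G.edgeSet, (if v ∈ (e : Sym2 V) then c e else 0) = 0}
  zero_mem' := by
    intro v
    simp
  add_mem' := by
    intro c d hc hd v
    have h1 : ∀ e : G.edgeSet, (if v ∈ (e : Sym2 V) then (c + d) e else 0) =
        (if v ∈ (e : Sym2 V) then c e else 0) + (if v ∈ (e : Sym2 V) then d e else 0) := by
      intro e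
      split_ifs
      · rfl
      · rw [add_zero]
    simp only [h1, Finset.sum_add_distrib]
    rw [hc v, hd v, add_zero]
  smul_mem' := by
    intro a c hc v
    have h1 : ∀ e : G.edgeSet, (if v ∈ (e : Sym2 V) then (a • c) e else 0) =
        a * (if v ∈ (e : Sym2 V) then c e else 0) := by
      intro e
      split_ifs
      · rfl
      · rw [mul_zero]
    simp only [h1, ← Finset.mul_sum]
    rw [hc v, mul_zero]

/-- `B` is a cycle basis of `G`: a basis of its cycle space. -/
def IsCycleBasis {V : Type} [Fintype V] (G : SimpleGraph V) (B : Finset (G.edgeSet → ZMod 2)) : Prop :=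
  LinearIndependent (ZMod 2) (fun c : B => (c : G.edgeSet → ZMod 2)) ∧
    Submodule.span (ZMod 2) (B : Set (G.edgeSet → ZMod 2)) = cycleSpace G

open Classical in
/-- The ply of the edge `e`: the number of members of `B` which contain `e`. -/
noncomputable def ply {V : Type} (G : SimpleGraph V) (B : Finset (G.edgeSet → ZMod 2)) (e : G.edgeSet) : ℕ :=
  (B.filter fun c => c e ≠ 0).card

/-- The basis number of `G`: the smallest `m` for which there is a cycle basis such that each edge is in at most `m` of
its members. -/
noncomputable def basisNumber {V : Type} [Fintype V] (G : SimpleGraph V) : ℕ :=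
  sInf {m : ℕ | ∃ B, IsCycleBasis G B ∧ ∀ e : G.edgeSet, ply G B e ≤ m}

open Classical in
/-- A graph with `n` vertices and `m` edges has basis number at most `4 (log_2 n + 1) + log_2 m`. -/
theorem result : ∀ (V : Type) [Fintype V] (G : SimpleGraph V),
    basisNumber G ≤ 4 * (Nat.log 2 (Fintype.card V) + 1) + Nat.log 2 (Nat.card G.edgeSet) := by
  intro V _ G
  have h1 : ∀ e : G.edgeSet, ∃ p : V × V, (e : Sym2 V) = s(p.1, p.2) ∧ G.Adj p.1 p.2 := by
    rintro ⟨e, he⟩
    induction e using Sym2.ind with
    | _ a b => exact ⟨(a, b), rfl, he⟩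
  choose p hp1 hp2 using h1
  let s : G.edgeSet → V := fun e => (p e).1
  let t : G.edgeSet → V := fun e => (p e).2
  have hl : ∀ e, s e ≠ t e := fun e => (hp2 e).ne
  have h2 := Pool.Agent.K9h72.BN.main2_of
    (Pool.Agent.K9h72.BN.riz Pool.Agent.K9h72.BN.moo Pool.Agent.K9h72.BN.con Pool.Agent.K9h72.BN.stb)
    Pool.Agent.K9h72.BN.pot V G.edgeSet s t
  obtain ⟨S, hS1, hS2, hS3⟩ := h2
  have h3 : Pool.Agent.K9h72.BN.Cy s t = cycleSpace G := by
    ext c
    have h4 : ∀ v, (Pool.Agent.K9h72.BN.bd s t c) v = ∑ e : G.edgeSet, (if v ∈ (e : Sym2 V) then c e else 0) := by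
      intro v
      change ∑ e : G.edgeSet, c e * Pool.Agent.K9h72.BN.inc s t e v = _
      refine Finset.sum_congr rfl fun e _ => ?_
      unfold Pool.Agent.K9h72.BN.inc
      have h5 : v ∈ (e : Sym2 V) ↔ v = s e ∨ v = t e := by
        rw [hp1 e, Sym2.mem_iff]
      have h6 := hl e
      by_cases ha : s e = v
      · have hb : t e ≠ v := fun hb => h6 (ha.trans hb.symm)
        rw [if_pos ha, if_neg hb, if_pos (h5.mpr (Or.inl ha.symm)), add_zero, mul_one]
      · by_cases hb : t e = v
        · rw [if_neg ha, if_pos hb, if_pos (h5.mpr (Or.inr hb.symm)), zero_add, mul_one]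
        · have hc : v ∉ (e : Sym2 V) := by
            rw [h5]
            rintro (h | h)
            · exact ha h.symm
            · exact hb h.symm
          rw [if_neg ha, if_neg hb, if_neg hc, add_zero, mul_zero]
    constructor
    · intro hc v
      have hc' : Pool.Agent.K9h72.BN.bd s t c = 0 := hc
      rw [← h4 v, hc']
      rfl
    · intro hc
      have hc' : Pool.Agent.K9h72.BN.bd s t c = 0 := by
        funext v
        rw [h4 v]
        exact hc v
      exact hc'
  apply Nat.sInf_le
  refine ⟨S, ⟨hS1, by rw [hS2, h3]⟩, ?_⟩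
  intro e
  have h7 := hS3 e
  rw [Nat.card_eq_fintype_card]
  unfold ply
  convert h7

end Pool.Agent.Results.MP_35885f_co.LogBound
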