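import Pool.Agent.K9h72.BN.Asme
import Pool.Agent.K9h72.BN.Leaf
import Pool.Agent.K9h72.BN.Cls
import Pool.Agent.K9h72.BN.Gre
import Pool.Agent.K9h72.BN.Join
import Pool.Agent.K9h72.BN.Tree
import Pool.Agent.K9h72.BN.Potb
import Pool.Agent.K9h72.BN.PotC
import Pool.Agent.K9h72.BN.RepF
import Pool.Agent.K9h72.BN.Wgt

/-!
# Basis number of graphs of bounded treewidth composed of parts

Let `G` have treewidth at most `k`, and let its edges be partitioned into parts `X_l` such that the subgraphs `(V, X_l)`
have basis number at most `β`. Then for every `b ≥ 2` the basis number of `G` is at most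
`β + 4 b (k + 1) + log_b Q`, where `Q` is the sum over the parts of `min |X_l| (2 |∂X_l|)`, and `∂X_l` is the set of the
vertices incident both with an edge in `X_l` and with an edge not in `X_l`. If the parts are single edges (`β = 0`) this is
at most `4 b (k + 1) + log_b |E|`.
-/

set_option autoImplicit false

namespace Pool.Agent.Results.MP_35885f_co.ManyParts

open Classical in
/-- The cycle space of the subgraph of `G` with the edge set `X`, over the field with two elements. Its elements are the
(characteristic functions of the) subsets of `X` which contain an even number of edges at each vertex. -/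
noncomputable def cycleSpaceOn {V : Type} [Fintype V] (G : SimpleGraph V) (X : Set G.edgeSet) :
    Submodule (ZMod 2) (G.edgeSet → ZMod 2) where
  carrier := {c | (∀ v : V, ∑ e : G.edgeSet, (if v ∈ (e : Sym2 V) then c e else 0) = 0) ∧ ∀ e, e ∉ X → c e = 0}
  zero_mem' := by
    refine ⟨fun v => by simp, fun _ _ => rfl⟩
  add_mem' := by
    rintro c d ⟨hc, hc'⟩ ⟨hd, hd'⟩
    refine ⟨fun v => ?_, fun e he => ?_⟩
    · have h1 : ∀ e : G.edgeSet, (if v ∈ (e : Sym2 V) then (c + d) e else 0) =
          (if v ∈ (e : Sym2 V) then c e else 0) + (if v ∈ (e : Sym2 V) then d e else 0) := by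
        intro e
        split_ifs
        · rfl
        · rw [add_zero]
      simp only [h1, Finset.sum_add_distrib]
      rw [hc v, hd v, add_zero]
    · rw [Pi.add_apply, hc' e he, hd' e he, add_zero]
  smul_mem' := by
    rintro a c ⟨hc, hc'⟩
    refine ⟨fun v => ?_, fun e he => ?_⟩
    · have h1 : ∀ e : G.edgeSet, (if v ∈ (e : Sym2 V) then (a • c) e else 0) =
          a * (if v ∈ (e : Sym2 V) then c e else 0) := by
        intro e
        split_ifs
        · rfl
        · rw [mul_zero]
      simp only [h1, ← Finset.mul_sum]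
      rw [hc v, mul_zero]
    · rw [Pi.smul_apply, hc' e he, smul_zero]

/-- `B` is a cycle basis of the subgraph of `G` with the edge set `X`: a basis of its cycle space. -/
def IsCycleBasisOn {V : Type} [Fintype V] (G : SimpleGraph V) (X : Set G.edgeSet)
    (B : Finset (G.edgeSet → ZMod 2)) : Prop :=
  LinearIndependent (ZMod 2) (fun c : B => (c : G.edgeSet → ZMod 2)) ∧
    Submodule.span (ZMod 2) (B : Set (G.edgeSet → ZMod 2)) = cycleSpaceOn G X

open Classical in
/-- The ply of the edge `e`: the number of members of `B` which contain `e`. -/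
noncomputable def ply {V : Type} (G : SimpleGraph V) (B : Finset (G.edgeSet → ZMod 2)) (e : G.edgeSet) : ℕ :=
  (B.filter fun c => c e ≠ 0).card

/-- The basis number of the subgraph of `G` with the edge set `X`: the smallest `m` for which it has a cycle basis such
that each edge is in at most `m` of its members. For `X = Set.univ` it is the basis number of `G`. -/
noncomputable def basisNumberOn {V : Type} [Fintype V] (G : SimpleGraph V) (X : Set G.edgeSet) : ℕ :=
  sInf {m : ℕ | ∃ B, IsCycleBasisOn G X B ∧ ∀ e : G.edgeSet, ply G B e ≤ m}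

/-- The minimum in the definition of the basis number is attained. -/
theorem attained {V : Type} [Fintype V] (G : SimpleGraph V) (X : Set G.edgeSet) :
    ∃ B, IsCycleBasisOn G X B ∧ ∀ e : G.edgeSet, ply G B e ≤ basisNumberOn G X := by
  classical
  have h1 : {m : ℕ | ∃ B, IsCycleBasisOn G X B ∧ ∀ e : G.edgeSet, ply G B e ≤ m}.Nonempty := by
    obtain ⟨b, hb1, hb2, hb3⟩ := exists_linearIndependent (ZMod 2) (cycleSpaceOn G X : Set (G.edgeSet → ZMod 2))
    have hfin : b.Finite := Set.toFinite b
    refine ⟨hfin.toFinset.card, hfin.toFinset, ⟨?_, ?_⟩, fun e => Finset.card_filter_le _ _⟩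
    · have h2 : LinearIndependent (ZMod 2) (fun c : b => (c : G.edgeSet → ZMod 2)) := hb3
      have h4 : ((hfin.toFinset : Finset (G.edgeSet → ZMod 2)) : Set (G.edgeSet → ZMod 2)) = b := hfin.coe_toFinset
      have h5 : LinearIndepOn (ZMod 2) id ((hfin.toFinset : Finset (G.edgeSet → ZMod 2)) :
          Set (G.edgeSet → ZMod 2)) := by
        rw [h4]
        exact h2
      exact h5
    · rw [hfin.coe_toFinset, hb2, Submodule.span_eq]
  exact Nat.sInf_mem h1

/-- `(B i)`, `i` a node of the tree `T`, is a tree decomposition of `G` of width at most `k`. -/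
structure IsTreeDecomposition {V : Type} [Fintype V] (G : SimpleGraph V) (k : ℕ) {n : ℕ} (T : SimpleGraph (Fin n))
    (B : Fin n → Finset V) : Prop where
  isTree : T.IsTree
  connected : ∀ v : V, (T.induce {i : Fin n | v ∈ B i}).Connected
  edge : ∀ u v : V, G.Adj u v → ∃ i, u ∈ B i ∧ v ∈ B i
  width : ∀ i, (B i).card ≤ k + 1

/-- `G` has treewidth at most `k`. -/
def TreewidthLE {V : Type} [Fintype V] (G : SimpleGraph V) (k : ℕ) : Prop :=
  ∃ (n : ℕ) (T : SimpleGraph (Fin n)) (B : Fin n → Finset V), IsTreeDecomposition G k T B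

/-- The part `X_l`: the edges with label `l`. -/
def part {V : Type} (G : SimpleGraph V) (κ : G.edgeSet → ℕ) (l : ℕ) : Set G.edgeSet := {e | κ e = l}

/-- The boundary of the part `X_l`: the vertices incident both with an edge in `X_l` and with an edge not in `X_l`. -/
def boundary {V : Type} (G : SimpleGraph V) (κ : G.edgeSet → ℕ) (l : ℕ) : Set V :=
  {v | (∃ e : G.edgeSet, v ∈ (e : Sym2 V) ∧ κ e = l) ∧ ∃ e : G.edgeSet, v ∈ (e : Sym2 V) ∧ κ e ≠ l}

open Classical in
/-- If `G` has treewidth at most `k` and its edges are partitioned into parts of basis number at most `β`, then the basis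
number of `G` is at most `β + 4 b (k + 1) + log_b Q`, `Q` the sum over the nonempty parts of `min |X_l| (2 |∂X_l|)`. -/
theorem result : ∀ (V : Type) [Fintype V] (G : SimpleGraph V) (k b β : ℕ) (κ : G.edgeSet → ℕ), TreewidthLE G k →
    2 ≤ b → (∀ l : ℕ, basisNumberOn G (part G κ l) ≤ β) →
    basisNumberOn G Set.univ ≤ β + 4 * b * (k + 1) +
      Nat.log b (∑ l ∈ Finset.univ.image κ, min (part G κ l).ncard (2 * (boundary G κ l).ncard)) := by
  intro V _ G k b β κ htw hb hβ
  obtain ⟨n, T, B, hB⟩ := htw
  have h1 : ∀ e : G.edgeSet, ∃ p : V × V, (e : Sym2 V) = s(p.1, p.2) ∧ G.Adj p.1 p.2 := by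
    rintro ⟨e, he⟩
    induction e using Sym2.ind with
    | _ x y => exact ⟨(x, y), rfl, he⟩
  choose p hp1 hp2 using h1
  let s : G.edgeSet → V := fun e => (p e).1
  let t : G.edgeSet → V := fun e => (p e).2
  have hl : ∀ e, s e ≠ t e := fun e => (hp2 e).ne
  have hmem : ∀ (v : V) (e : G.edgeSet), v ∈ (e : Sym2 V) ↔ s e = v ∨ t e = v := by
    intro v e
    rw [hp1 e, Sym2.mem_iff]
    constructor
    · rintro (h | h)
      · exact Or.inl h.symm
      · exact Or.inr h.symm
    · rintro (h | h)
      · exact Or.inl h.symm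
      · exact Or.inr h.symm
  have h3 : ∀ X : Finset G.edgeSet, Pool.Agent.K9h72.BN.Cy s t ⊓ Pool.Agent.K9h72.BN.Sup X =
      cycleSpaceOn G (X : Set G.edgeSet) := by
    intro X
    ext c
    have h4 : ∀ v, (Pool.Agent.K9h72.BN.bd s t c) v = ∑ e : G.edgeSet, (if v ∈ (e : Sym2 V) then c e else 0) := by
      intro v
      change ∑ e : G.edgeSet, c e * Pool.Agent.K9h72.BN.inc s t e v = _
      refine Finset.sum_congr rfl fun e _ => ?_
      unfold Pool.Agent.K9h72.BN.inc
      have h5 := hmem v e
      have h6 := hl e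
      by_cases ha : s e = v
      · have hb : t e ≠ v := fun hb => h6 (ha.trans hb.symm)
        rw [if_pos ha, if_neg hb, if_pos (h5.mpr (Or.inl ha)), add_zero, mul_one]
      · by_cases hb : t e = v
        · rw [if_neg ha, if_pos hb, if_pos (h5.mpr (Or.inr hb)), zero_add, mul_one]
        · have hc : v ∉ (e : Sym2 V) := by
            rw [h5]
            rintro (h | h)
            · exact ha h
            · exact hb h
          rw [if_neg ha, if_neg hb, if_neg hc, add_zero, mul_zero]
    constructor
    · rintro ⟨hc, hcX⟩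
      have hc' : Pool.Agent.K9h72.BN.bd s t c = 0 := hc
      refine ⟨fun v => ?_, fun e he => hcX e (by simpa using he)⟩
      rw [← h4 v, hc']
      rfl
    · rintro ⟨hc, hcX⟩
      refine ⟨?_, fun e he => hcX e (by simpa using he)⟩
      have hc' : Pool.Agent.K9h72.BN.bd s t c = 0 := by
        funext v
        rw [h4 v]
        exact hc v
      exact hc'
  have h3' : Pool.Agent.K9h72.BN.Cy s t = cycleSpaceOn G Set.univ := by
    have h5 := h3 Finset.univ
    rw [Finset.coe_univ] at h5
    rw [← h5]
    refine (inf_eq_left.mpr ?_).symm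
    intro c _ e he
    exact absurd (Finset.mem_univ e) he
  have hpart : ∀ l, ((Pool.Agent.K9h72.BN.Kp κ (fun j => j = l) : Finset G.edgeSet) : Set G.edgeSet) =
      part G κ l := by
    intro l
    ext e
    simp [Pool.Agent.K9h72.BN.Kp, part]
  have hbd : ∀ l, ((Pool.Agent.K9h72.BN.bdry s t (Pool.Agent.K9h72.BN.Kp κ (fun j => j = l)) : Finset V) : Set V) =
      boundary G κ l := by
    intro l
    ext v
    constructor
    · intro hv
      obtain ⟨h5, h6⟩ := Finset.mem_inter.mp (Finset.mem_coe.mp hv)
      obtain ⟨_, e, he, hev⟩ := Finset.mem_filter.mp h5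
      obtain ⟨_, e', he', hev'⟩ := Finset.mem_filter.mp h6
      refine ⟨⟨e, (hmem v e).mpr hev, (Finset.mem_filter.mp he).2⟩, ⟨e', (hmem v e').mpr hev', fun hc => ?_⟩⟩
      exact (Finset.mem_compl.mp he') (Finset.mem_filter.mpr ⟨Finset.mem_univ _, hc⟩)
    · rintro ⟨⟨e, he, hel⟩, ⟨e', he', hel'⟩⟩
      apply Finset.mem_coe.mpr
      refine Finset.mem_inter.mpr ⟨Finset.mem_filter.mpr ⟨Finset.mem_univ _, e, ?_, (hmem v e).mp he⟩,
        Finset.mem_filter.mpr ⟨Finset.mem_univ _, e', ?_, (hmem v e').mp he'⟩⟩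
      · exact Finset.mem_filter.mpr ⟨Finset.mem_univ _, hel⟩
      · exact Finset.mem_compl.mpr fun h => hel' (Finset.mem_filter.mp h).2
  have h2 := Pool.Agent.K9h72.BN.main8_of (Pool.Agent.K9h72.BN.potc Pool.Agent.K9h72.BN.potb)
    (Pool.Agent.K9h72.BN.repf (Pool.Agent.K9h72.BN.cls Pool.Agent.K9h72.BN.leaf))
    (Pool.Agent.K9h72.BN.wgt (Pool.Agent.K9h72.BN.join_ (Pool.Agent.K9h72.BN.cls Pool.Agent.K9h72.BN.leaf)
      Pool.Agent.K9h72.BN.gre) Pool.Agent.K9h72.BN.tree_)
    V G.edgeSet s t hl n T B (k + 1) hB.isTree hB.connected (fun e => hB.edge _ _ (hp2 e)) hB.width b hb κ β ?_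
  · obtain ⟨S, hS1, hS2, hS3⟩ := h2
    apply Nat.sInf_le
    refine ⟨S, ⟨hS1, by rw [hS2, h3']⟩, ?_⟩
    intro e
    have h7 := hS3 e
    have h8 : ∀ l, (Pool.Agent.K9h72.BN.Kp κ (fun j => j = l)).card = (part G κ l).ncard := by
      intro l
      rw [← hpart l, Set.ncard_coe_finset]
    have h9 : ∀ l, (Pool.Agent.K9h72.BN.bdry s t (Pool.Agent.K9h72.BN.Kp κ (fun j => j = l))).card =
        (boundary G κ l).ncard := by
      intro l
      rw [← hbd l, Set.ncard_coe_finset]
    simp only [h8, h9] at h7
    have h10 : 4 * b * (k + 1) = b * (4 * (k + 1)) := by ring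
    rw [h10, add_assoc]
    unfold ply
    convert h7
  · intro l
    obtain ⟨D, ⟨hD1, hD2⟩, hD3⟩ := attained G (part G κ l)
    refine ⟨D, hD1, ?_, ?_⟩
    · rw [hD2, h3, hpart l]
    · intro e
      have h5 := (hD3 e).trans (hβ l)
      unfold ply at h5
      convert h5

end Pool.Agent.Results.MP_35885f_co.ManyParts
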