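import Pool.Agent.K9h72.BN.Asmd
import Pool.Agent.K9h72.BN.PrA
import Pool.Agent.K9h72.BN.PrB

/-!
# Basis number: gluing along a path costs at most twice the adhesion

Let the edges of the graph `G` be partitioned into parts `E_0, E_1, ...` such that for each `l` at most `a + 1` vertices
are incident both with an edge in `E_j`, `j < l`, and with an edge in `E_j`, `j ≥ l`. Then the basis number of `G` is at
most `2 a` plus the largest basis number of a subgraph `(V, E_l)`.
-/

set_option autoImplicit false

namespace Pool.Agent.Results.MP_35885f_co.PathGluing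

open Classical in
/-- The cycle space of the subgraph of `G` with the edge set `X`, over the field with two elements. Its elements are the
(characteristic functions of the) subsets of `X` which contain an even number of edges at each vertex. -/
noncomputable def cycleSpaceOn {V : Type} [Fintype V] (G : SimpleGraph V) (X : Set G.edgeSet) :
    Submodule (ZMod 2) (G.edgeSet → ZMod 2) where
  carrier := {c | (∀ v : V, ∑ e : G.edgeSet, (if v ∈ (e : Sym2 V) then c e else 0) = 0) ∧ ∀ e, e ∉ X → c e = 0}
  zero_mem' := by
    refine ⟨fun v => by simp, fun _ _ => rfl⟩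
  add_mem' := by
    rintro c d ⟨hc, hc'⟩ ⟨hd, hd'⟩
    refine ⟨fun v => ?_, fun e he => ?_⟩
    · have h1 : ∀ e : G.edgeSet, (if v ∈ (e : Sym2 V) then (c + d) e else 0) =
          (if v ∈ (e : Sym2 V) then c e else 0) + (if v ∈ (e : Sym2 V) then d e else 0) := by
        intro e
        split_ifs
        · rfl
        · rw [add_zero]
      simp only [h1, Finset.sum_add_distrib]
      rw [hc v, hd v, add_zero]
    · rw [Pi.add_apply, hc' e he, hd' e he, add_zero]
  smul_mem' := by
    rintro a c ⟨hc, hc'⟩
    refine ⟨fun v => ?_, fun e he => ?_⟩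
    · have h1 : ∀ e : G.edgeSet, (if v ∈ (e : Sym2 V) then (a • c) e else 0) =
          a * (if v ∈ (e : Sym2 V) then c e else 0) := by
        intro e
        split_ifs
        · rfl
        · rw [mul_zero]
      simp only [h1, ← Finset.mul_sum]
      rw [hc v, mul_zero]
    · rw [Pi.smul_apply, hc' e he, smul_zero]

/-- `B` is a cycle basis of the subgraph of `G` with the edge set `X`: a basis of its cycle space. -/
def IsCycleBasisOn {V : Type} [Fintype V] (G : SimpleGraph V) (X : Set G.edgeSet)
    (B : Finset (G.edgeSet → ZMod 2)) : Prop :=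
  LinearIndependent (ZMod 2) (fun c : B => (c : G.edgeSet → ZMod 2)) ∧
    Submodule.span (ZMod 2) (B : Set (G.edgeSet → ZMod 2)) = cycleSpaceOn G X

open Classical in
/-- The ply of the edge `e`: the number of members of `B` which contain `e`. -/
noncomputable def ply {V : Type} (G : SimpleGraph V) (B : Finset (G.edgeSet → ZMod 2)) (e : G.edgeSet) : ℕ :=
  (B.filter fun c => c e ≠ 0).card

/-- The basis number of the subgraph of `G` with the edge set `X`: the smallest `m` for which it has a cycle basis such
that each edge is in at most `m` of its members. For `X = Set.univ` it is the basis number of `G`. -/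
noncomputable def basisNumberOn {V : Type} [Fintype V] (G : SimpleGraph V) (X : Set G.edgeSet) : ℕ :=
  sInf {m : ℕ | ∃ B, IsCycleBasisOn G X B ∧ ∀ e : G.edgeSet, ply G B e ≤ m}

/-- The minimum in the definition of the basis number is attained. -/
theorem attained {V : Type} [Fintype V] (G : SimpleGraph V) (X : Set G.edgeSet) :
    ∃ B, IsCycleBasisOn G X B ∧ ∀ e : G.edgeSet, ply G B e ≤ basisNumberOn G X := by
  classical
  have h1 : {m : ℕ | ∃ B, IsCycleBasisOn G X B ∧ ∀ e : G.edgeSet, ply G B e ≤ m}.Nonempty := by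
    obtain ⟨b, hb1, hb2, hb3⟩ := exists_linearIndependent (ZMod 2) (cycleSpaceOn G X : Set (G.edgeSet → ZMod 2))
    have hfin : b.Finite := Set.toFinite b
    refine ⟨hfin.toFinset.card, hfin.toFinset, ⟨?_, ?_⟩, fun e => Finset.card_filter_le _ _⟩
    · have h2 : LinearIndependent (ZMod 2) (fun c : b => (c : G.edgeSet → ZMod 2)) := hb3
      have h4 : ((hfin.toFinset : Finset (G.edgeSet → ZMod 2)) : Set (G.edgeSet → ZMod 2)) = b := hfin.coe_toFinset
      have h5 : LinearIndepOn (ZMod 2) id ((hfin.toFinset : Finset (G.edgeSet → ZMod 2)) :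
          Set (G.edgeSet → ZMod 2)) := by
        rw [h4]
        exact h2
      exact h5
    · rw [hfin.coe_toFinset, hb2, Submodule.span_eq]
  exact Nat.sInf_mem h1

open Classical in
/-- Gluing along a path: if for each `l` at most `a + 1` vertices are incident both with an edge with label `< l` and with an
edge with label `≥ l`, and the subgraph of the edges with label `l` has basis number at most `b` for each `l`, then the
basis number of `G` is at most `2 a + b`. -/
theorem result : ∀ (V : Type) [Fintype V] (G : SimpleGraph V) (κ : G.edgeSet → ℕ) (a b : ℕ),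
    (∀ l : ℕ, {v : V | (∃ e : G.edgeSet, v ∈ (e : Sym2 V) ∧ κ e < l) ∧ ∃ e : G.edgeSet, v ∈ (e : Sym2 V) ∧ l ≤ κ e}.ncard ≤ a + 1) →
    (∀ l : ℕ, basisNumberOn G {e | κ e = l} ≤ b) → basisNumberOn G Set.univ ≤ 2 * a + b := by
  intro V _ G κ a b ha hb
  have h1 : ∀ e : G.edgeSet, ∃ p : V × V, (e : Sym2 V) = s(p.1, p.2) ∧ G.Adj p.1 p.2 := by
    rintro ⟨e, he⟩
    induction e using Sym2.ind with
    | _ x y => exact ⟨(x, y), rfl, he⟩
  choose p hp1 hp2 using h1
  let s : G.edgeSet → V := fun e => (p e).1
  let t : G.edgeSet → V := fun e => (p e).2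
  have hl : ∀ e, s e ≠ t e := fun e => (hp2 e).ne
  have hmem : ∀ (v : V) (e : G.edgeSet), v ∈ (e : Sym2 V) ↔ s e = v ∨ t e = v := by
    intro v e
    rw [hp1 e, Sym2.mem_iff]
    constructor
    · rintro (h | h)
      · exact Or.inl h.symm
      · exact Or.inr h.symm
    · rintro (h | h)
      · exact Or.inl h.symm
      · exact Or.inr h.symm
  have h3 : ∀ X : Finset G.edgeSet, Pool.Agent.K9h72.BN.Cy s t ⊓ Pool.Agent.K9h72.BN.Sup X =
      cycleSpaceOn G (X : Set G.edgeSet) := by
    intro X
    ext c
    have h4 : ∀ v, (Pool.Agent.K9h72.BN.bd s t c) v = ∑ e : G.edgeSet, (if v ∈ (e : Sym2 V) then c e else 0) := by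
      intro v
      change ∑ e : G.edgeSet, c e * Pool.Agent.K9h72.BN.inc s t e v = _
      refine Finset.sum_congr rfl fun e _ => ?_
      unfold Pool.Agent.K9h72.BN.inc
      have h5 := hmem v e
      have h6 := hl e
      by_cases ha : s e = v
      · have hb : t e ≠ v := fun hb => h6 (ha.trans hb.symm)
        rw [if_pos ha, if_neg hb, if_pos (h5.mpr (Or.inl ha)), add_zero, mul_one]
      · by_cases hb : t e = v
        · rw [if_neg ha, if_pos hb, if_pos (h5.mpr (Or.inr hb)), zero_add, mul_one]
        · have hc : v ∉ (e : Sym2 V) := by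
            rw [h5]
            rintro (h | h)
            · exact ha h
            · exact hb h
          rw [if_neg ha, if_neg hb, if_neg hc, add_zero, mul_zero]
    constructor
    · rintro ⟨hc, hcX⟩
      have hc' : Pool.Agent.K9h72.BN.bd s t c = 0 := hc
      refine ⟨fun v => ?_, fun e he => hcX e (by simpa using he)⟩
      rw [← h4 v, hc']
      rfl
    · rintro ⟨hc, hcX⟩
      refine ⟨?_, fun e he => hcX e (by simpa using he)⟩
      have hc' : Pool.Agent.K9h72.BN.bd s t c = 0 := by
        funext v
        rw [h4 v]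
        exact hc v
      exact hc'
  have h3' : Pool.Agent.K9h72.BN.Cy s t = cycleSpaceOn G Set.univ := by
    have h5 := h3 Finset.univ
    rw [Finset.coe_univ] at h5
    rw [← h5]
    refine (inf_eq_left.mpr ?_).symm
    intro c _ e he
    exact absurd (Finset.mem_univ e) he
  have h2 := Pool.Agent.K9h72.BN.main7_of Pool.Agent.K9h72.BN.pra Pool.Agent.K9h72.BN.prb
    V G.edgeSet s t κ a b ?_ ?_
  · obtain ⟨S, hS1, hS2, hS3⟩ := h2
    apply Nat.sInf_le
    refine ⟨S, ⟨hS1, by rw [hS2, h3']⟩, ?_⟩
    intro e
    have h7 := hS3 e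
    unfold ply
    convert h7
  · intro l
    obtain ⟨D, ⟨hD1, hD2⟩, hD3⟩ := attained G {e | κ e = l}
    refine ⟨D, hD1, ?_, ?_⟩
    · rw [hD2, h3]
      congr 1
      ext e
      simp [Pool.Agent.K9h72.BN.Kp]
    · intro e
      have h5 := (hD3 e).trans (hb l)
      unfold ply at h5
      convert h5
  · intro l
    refine le_trans ?_ (ha l)
    rw [← Set.ncard_coe_finset]
    apply Set.ncard_le_ncard _ (Set.toFinite _)
    intro v hv
    obtain ⟨h5, h6⟩ := Finset.mem_inter.mp (Finset.mem_coe.mp hv)
    obtain ⟨_, e, he, hev⟩ := Finset.mem_filter.mp h5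
    obtain ⟨_, e', he', hev'⟩ := Finset.mem_filter.mp h6
    refine ⟨⟨e, (hmem v e).mpr hev, (Finset.mem_filter.mp he).2⟩, ⟨e', (hmem v e').mpr hev', ?_⟩⟩
    by_contra hc
    exact (Finset.mem_compl.mp he') (Finset.mem_filter.mpr ⟨Finset.mem_univ _, not_le.mp hc⟩)

end Pool.Agent.Results.MP_35885f_co.PathGluing
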