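import Pool.Agent.K9h11.BN.O

/-!
# The basis number, tree decompositions and routed adhesion sets

Let `G` be a finite graph.

1. Suppose that `G` has a tree decomposition, that every subgraph of every torso has basis number at
   most `b`, and that the edges of the torsos which are missing in `G` can be replaced by paths of
   `G` with the same ends, each edge of `G` lying on at most `m` of these paths (`m = 0`: all
   adhesion sets are cliques).  Then `bn(G) ≤ (b+5)(m+1)`.
2. If `G` has pathwidth at most `k`, then `bn(G) ≤ k+1`.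
3. If all torsos in 1 have pathwidth at most `k`, for example if the decomposition has width at most
   `k`, then `bn(G) ≤ (k+6)(m+1)`.
4. If `H ⊇ G` is chordal and the edges of `H` missing in `G` can be replaced by paths of `G` as in
   1, then `bn(G) ≤ 5(m+1)`.

Outline.  2: order the edges along a path decomposition.  A basis of the cycle space in which the
last edges of the members are different and the first edges are different (minimise the total length
of the spans) has at most `k+1` members through an edge `e`: otherwise a combination of the members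
through `e` avoids `e` and its part before `e` has even degrees in the bag of `e`, so it is the sum
of a cycle before `e` and a cycle after `e`, which contradicts the difference of the last edges.
1, 3 for cliques: order the nodes of the tree from the root.  The new edges of a node form a graph
`E_i`.  Take a depth first order of a spanning forest of `E_i`, and for old vertices `a`, `b` of the
node which are next to each other in this order and in the same component the path `p_i(ab)` of the
forest; each edge lies on at most two of these paths.  The cycle space of `G` is spanned by the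
bases of the `E_i` and the cycles `p_i(ab) + p_j(ab)`, `j` the last node before `i` with the same
pair (`p_i(ab) + ab` if there is none), and each edge lies on at most `b + 2 + 2 + 1` of them.
4 for `G = H` is similar with one node per vertex.  Missing edges are replaced by their routes.
-/

set_option autoImplicit false

namespace Pool.Agent.Results.MP_35885f_co.RoutedAdhesions

open Finset
open Classical
open Pool.Agent.K9h11.BN (W bd Sup Cyc mem_Cyc de iv SpanPly HasPly)

/-- The cycle space of `G`: the edge sets of `G`, written as vectors `x` over `ZMod 2` indexed by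
the pairs of vertices (`x e = 1` if `e` belongs to the set), in which all degrees are even. -/
def cycleSpace {V : Type} [Fintype V] (G : SimpleGraph V) :
    Submodule (ZMod 2) (Sym2 V → ZMod 2) where
  carrier := {x | (∀ e, e ∉ G.edgeSet → x e = 0) ∧
    ∀ v, ∑ e ∈ univ.filter (fun e : Sym2 V => v ∈ e), x e = 0}
  add_mem' := by
    rintro x y ⟨h1, h2⟩ ⟨h3, h4⟩
    refine ⟨fun e he => ?_, fun v => ?_⟩
    · rw [Pi.add_apply, h1 e he, h3 e he, add_zero]
    · simp only [Pi.add_apply]
      rw [Finset.sum_add_distrib, h2 v, h4 v, add_zero]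
  zero_mem' := ⟨fun _ _ => rfl, fun _ => by simp⟩
  smul_mem' := by
    rintro c x ⟨h1, h2⟩
    refine ⟨fun e he => ?_, fun v => ?_⟩
    · rw [Pi.smul_apply, h1 e he, smul_zero]
    · simp only [Pi.smul_apply]
      rw [← Finset.smul_sum, h2 v, smul_zero]

/-- `b` is a basis of the cycle space of `G` -/
def IsCycleBasis {V : Type} [Fintype V] (G : SimpleGraph V) (b : Finset (Sym2 V → ZMod 2)) :
    Prop :=
  LinearIndependent (ZMod 2) (fun x : b => (x : Sym2 V → ZMod 2)) ∧
    Submodule.span (ZMod 2) (b : Set (Sym2 V → ZMod 2)) = cycleSpace G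

/-- the number of members of `b` containing `e` -/
noncomputable def ply {V : Type} (b : Finset (Sym2 V → ZMod 2)) (e : Sym2 V) : ℕ :=
  (b.filter (fun x => x e ≠ 0)).card

/-- the basis number of `G` -/
noncomputable def bn {V : Type} [Fintype V] (G : SimpleGraph V) : ℕ :=
  sInf {m | ∃ b : Finset (Sym2 V → ZMod 2), IsCycleBasis G b ∧ ∀ e ∈ G.edgeSet, ply b e ≤ m}

/-- tree decompositions with tree `T` and bags `B` -/
structure IsTreeDecomposition {V ι : Type} (G : SimpleGraph V) (T : SimpleGraph ι)
    (B : ι → Finset V) : Prop where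
  tree : T.IsTree
  connected : ∀ v, (T.induce {x | v ∈ B x}).Connected
  edge : ∀ u v, G.Adj u v → ∃ x, u ∈ B x ∧ v ∈ B x

/-- `G` with all edges between two vertices of an adhesion set `B x ∩ B y`, `x` and `y` adjacent
nodes of the tree -/
def filled {V ι : Type} (G : SimpleGraph V) (T : SimpleGraph ι) (B : ι → Finset V) :
    SimpleGraph V where
  Adj u v := G.Adj u v ∨
    (u ≠ v ∧ ∃ x y, T.Adj x y ∧ u ∈ B x ∧ v ∈ B x ∧ u ∈ B y ∧ v ∈ B y)
  symm := ⟨fun _ _ h => h.elim (fun h => Or.inl h.symm)
    (fun ⟨h, x, y, h0, h1, h2, h3, h4⟩ => Or.inr ⟨h.symm, x, y, h0, h2, h1, h4, h3⟩)⟩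
  loopless := ⟨fun _ h => h.elim (fun h => G.loopless.irrefl _ h) (fun h => h.1 rfl)⟩

/-- the torso of the node `x`: the edges of `filled G T B` with both ends in `B x` -/
def torso {V ι : Type} (G : SimpleGraph V) (T : SimpleGraph ι) (B : ι → Finset V) (x : ι) :
    SimpleGraph V where
  Adj u v := (filled G T B).Adj u v ∧ u ∈ B x ∧ v ∈ B x
  symm := ⟨fun _ _ h => ⟨h.1.symm, h.2.2, h.2.1⟩⟩
  loopless := ⟨fun _ h => (filled G T B).loopless.irrefl _ h.1⟩

/-- Every edge `uv` of `H` which is not an edge of `G` is replaced by a path of `G` from `u` to `v`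
with edge set `P s(u, v)`, and each edge lies on at most `m` of these paths. -/
def IsRouting {V : Type} [Fintype V] (G H : SimpleGraph V) (P : Sym2 V → Finset (Sym2 V))
    (m : ℕ) : Prop :=
  (∀ u v, H.Adj u v → ¬ G.Adj u v →
    ∃ w : G.Walk u v, w.IsPath ∧ ∀ e, e ∈ P s(u, v) ↔ e ∈ w.edges) ∧
    ∀ e, (univ.filter (fun q : Sym2 V => q ∈ H.edgeSet ∧ q ∉ G.edgeSet ∧ e ∈ P q)).card ≤ m

/-- the graph `H` has a path decomposition of width at most `k` -/
def PathwidthLE {V : Type} (H : SimpleGraph V) (k : ℕ) : Prop :=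
  ∃ (M : ℕ) (D : ℕ → Finset V), (∀ v, ∃ j < M, v ∈ D j) ∧
    (∀ u v, H.Adj u v → ∃ j < M, u ∈ D j ∧ v ∈ D j) ∧
    (∀ v i j l, i ≤ j → j ≤ l → l < M → v ∈ D i → v ∈ D l → v ∈ D j) ∧
    ∀ j < M, (D j).card ≤ k + 1

/-- there is an ordering of the vertices in which the earlier neighbours of each vertex form a
clique (a perfect elimination ordering, reversed) -/
def IsChordal {V : Type} (H : SimpleGraph V) : Prop :=
  ∃ ord : V → ℕ, Function.Injective ord ∧ ∀ u v w, H.Adj u w → H.Adj v w → ord u < ord w →
    ord v < ord w → u ≠ v → H.Adj u v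

lemma cyc_eq {V : Type} [Fintype V] (G : SimpleGraph V) : Cyc G.edgeSet = cycleSpace G := by
  ext x
  rw [mem_Cyc]
  rfl

lemma bn_le {V : Type} [Fintype V] {G : SimpleGraph V} {m : ℕ} (h : SpanPly (Cyc G.edgeSet) m) :
    bn G ≤ m := by
  obtain ⟨b, h1, h2, h3⟩ := h.basis
  apply Nat.sInf_le
  refine ⟨b, ⟨h1, ?_⟩, fun e _ => h3 e⟩
  rw [h2, cyc_eq]

lemma spanPly_of_bn {V : Type} [Fintype V] {G : SimpleGraph V} {m : ℕ} (h : bn G ≤ m) :
    SpanPly (Cyc G.edgeSet) m := by
  have hne : {m | ∃ b : Finset (Sym2 V → ZMod 2), IsCycleBasis G b ∧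
      ∀ e ∈ G.edgeSet, ply b e ≤ m}.Nonempty := by
    have h1 : SpanPly (Cyc G.edgeSet) (univ : Finset V).card :=
      Pool.Agent.K9h11.BN.small (fun e he => SimpleGraph.not_isDiag_of_mem_edgeSet _ he)
        (fun _ _ v _ => mem_univ v)
    obtain ⟨b, h2, h3, h4⟩ := h1.basis
    exact ⟨_, b, ⟨h2, by rw [h3, cyc_eq]⟩, fun e _ => h4 e⟩
  obtain ⟨b, ⟨-, h2⟩, h3⟩ := Nat.sInf_mem hne
  refine ⟨b, by rw [h2, cyc_eq], fun e => ?_⟩
  by_cases he : e ∈ G.edgeSet
  · exact (h3 e he).trans h
  · have : b.filter (fun x => x e ≠ 0) = ∅ := by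
      rw [Finset.filter_eq_empty_iff]
      intro x hx
      rw [not_not]
      have h4 : x ∈ cycleSpace G := by
        rw [← h2]
        exact Submodule.subset_span (Finset.mem_coe.2 hx)
      exact h4.1 e he
    rw [this]
    simp

lemma pathw_le {V : Type} [Fintype V] {H H' : SimpleGraph V} {k : ℕ} (hH : PathwidthLE H k)
    (h : H' ≤ H) : bn H' ≤ k + 1 := by
  obtain ⟨M, D, -, h2, h3, h4⟩ := hH
  apply bn_le
  refine Pool.Agent.K9h11.BN.pathw (fun e he =>
    SimpleGraph.not_isDiag_of_mem_edgeSet _ he) D ?_ h3 h4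
  intro e he
  induction e with
  | _ u v =>
    obtain ⟨j, hj, h7, h8⟩ := h2 u v (h he)
    refine ⟨j, hj, fun w hw => ?_⟩
    rw [Sym2.mem_iff] at hw
    rcases hw with rfl | rfl
    · exact h7
    · exact h8

lemma routed {V : Type} [Fintype V] {G H : SimpleGraph V} (hGH : G ≤ H)
    {P : Sym2 V → Finset (Sym2 V)} {m t : ℕ} (hP : IsRouting G H P m)
    (h : SpanPly (Cyc H.edgeSet) t) : SpanPly (Cyc G.edgeSet) (t * (m + 1)) := by
  have hq : ∀ κ : Sym2 V, ∃ q : W V, κ ∈ H.edgeSet → κ ∉ G.edgeSet →
      (q ∈ Sup G.edgeSet ∧ bd q = bd (de κ)) ∧ ∀ e, q e ≠ 0 → e ∈ P κ := by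
    intro κ
    by_cases h1 : κ ∈ H.edgeSet ∧ κ ∉ G.edgeSet
    · induction κ with
      | _ u v =>
        obtain ⟨w, -, hw⟩ := hP.1 u v h1.1 h1.2
        obtain ⟨x, hx1, hx2⟩ := Pool.Agent.K9h11.BN.walk_vec w
        refine ⟨x, fun _ _ => ⟨⟨?_, ?_⟩, fun e he => (hw e).2 (hx1 e he)⟩⟩
        · intro e he
          by_contra h3
          exact he (w.edges_subset_edgeSet (hx1 e h3))
        · rw [hx2, Pool.Agent.K9h11.BN.bd_de (SimpleGraph.Adj.ne h1.1)]
    · exact ⟨0, fun h2 h3 => absurd ⟨h2, h3⟩ h1⟩
  choose q hq using hq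
  refine Pool.Agent.K9h11.BN.route (E := G.edgeSet) (E' := H.edgeSet) ?_ q
    (fun κ h1 h2 => (hq κ h1 h2).1) ?_ h
  · exact SimpleGraph.edgeSet_mono hGH
  · intro e
    refine ⟨_, fun κ h1 h2 h3 => ?_, hP.2 e⟩
    rw [mem_filter]
    exact ⟨mem_univ _, h1, h2, (hq κ h1 h2).2 e h3⟩

lemma torso_bound {V ι : Type} [Fintype V] [Fintype ι] {G : SimpleGraph V} {T : SimpleGraph ι}
    {B : ι → Finset V} {P : Sym2 V → Finset (Sym2 V)} {b m : ℕ}
    (h : IsTreeDecomposition G T B)
    (hb : ∀ (x : ι) (H : SimpleGraph V), H ≤ torso G T B x → bn H ≤ b)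
    (hP : IsRouting G (filled G T B) P m) : bn G ≤ (b + 5) * (m + 1) := by
  apply bn_le
  apply routed (H := filled G T B) (fun _ _ h => Or.inl h) hP
  apply Pool.Agent.K9h11.BN.treeMain2 h.tree B (fun v => (h.connected v).preconnected)
  · rintro u v (huv | ⟨-, x, -, -, h1, h2, -, -⟩)
    · exact h.edge u v huv
    · exact ⟨x, h1, h2⟩
  · intro x y hxy u v h1 h2 h3 h4 huv
    exact Or.inr ⟨huv, x, y, hxy, h1, h2, h3, h4⟩
  · intro x E hE hEx
    have h1 : (SimpleGraph.fromEdgeSet E).edgeSet = E := by
      rw [SimpleGraph.edgeSet_fromEdgeSet]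
      ext e
      constructor
      · exact fun h => h.1
      · exact fun he => ⟨he, SimpleGraph.not_isDiag_of_mem_edgeSet _ (hE he)⟩
    rw [← h1]
    apply spanPly_of_bn
    apply hb x
    intro u v huv
    rw [SimpleGraph.fromEdgeSet_adj] at huv
    exact ⟨hE huv.1, hEx _ huv.1 u (Sym2.mem_mk_left u v), hEx _ huv.1 v (Sym2.mem_mk_right u v)⟩

/-- Four bounds for the basis number of a finite graph: 1. for tree decompositions such that the
subgraphs of the torsos have basis number at most `b` and the missing edges of the torsos are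
routed with congestion `m`; 2. for pathwidth at most `k`; 3. for tree decompositions whose torsos
have pathwidth at most `k` (in particular for width at most `k`); 4. for subgraphs of chordal
graphs, the missing edges being routed with congestion `m`. -/
theorem result :
    (∀ (V ι : Type) [Fintype V] [Fintype ι] (G : SimpleGraph V) (T : SimpleGraph ι)
      (B : ι → Finset V) (P : Sym2 V → Finset (Sym2 V)) (b m : ℕ),
      IsTreeDecomposition G T B →
      (∀ (x : ι) (H : SimpleGraph V), H ≤ torso G T B x → bn H ≤ b) →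
      IsRouting G (filled G T B) P m → bn G ≤ (b + 5) * (m + 1)) ∧
    (∀ (V : Type) [Fintype V] (G : SimpleGraph V) (k : ℕ), PathwidthLE G k → bn G ≤ k + 1) ∧
    (∀ (V ι : Type) [Fintype V] [Fintype ι] (G : SimpleGraph V) (T : SimpleGraph ι)
      (B : ι → Finset V) (P : Sym2 V → Finset (Sym2 V)) (k m : ℕ),
      IsTreeDecomposition G T B →
      ((∀ x, (B x).card ≤ k + 1) ∨ ∀ x, PathwidthLE (torso G T B x) k) →
      IsRouting G (filled G T B) P m → bn G ≤ (k + 6) * (m + 1)) ∧
    (∀ (V : Type) [Fintype V] (G H : SimpleGraph V) (P : Sym2 V → Finset (Sym2 V)) (m : ℕ),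
      G ≤ H → IsChordal H → IsRouting G H P m → bn G ≤ 5 * (m + 1)) := by
  refine ⟨?_, ?_, ?_, ?_⟩
  · intro V ι _ _ G T B P b m h hb hP
    exact torso_bound h hb hP
  · intro V _ G k h
    exact pathw_le h le_rfl
  · intro V ι _ _ G T B P k m h hw hP
    have h6 : k + 6 = k + 1 + 5 := by omega
    rw [h6]
    apply torso_bound h ?_ hP
    intro x H hH
    rcases hw with hw | hw
    · apply bn_le
      refine (Pool.Agent.K9h11.BN.small (B := B x) (fun e he =>
        SimpleGraph.not_isDiag_of_mem_edgeSet _ he) ?_).mono (hw x)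
      intro e he v hv
      induction e with
      | _ a c =>
        have h7 := hH he
        rw [Sym2.mem_iff] at hv
        rcases hv with rfl | rfl
        · exact h7.2.1
        · exact h7.2.2
    · exact pathw_le (hw x) hH
  · rintro V _ G H P m hGH ⟨ord, hord, hpeo⟩ hP
    exact bn_le (routed hGH hP (Pool.Agent.K9h11.BN.chordalMain ord hord hpeo))

end Pool.Agent.Results.MP_35885f_co.RoutedAdhesions
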